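import Pool.Agent.H57.GH.SFin
import Pool.Agent.H57.GH.BFin
import Pool.Agent.H57.GH.MHubF
import Pool.Agent.H57.GH.MMatF
import Pool.Agent.H57.GH.SCond
import Pool.Agent.H57.GH.GapH
import Pool.Agent.H57.GH.Neg
import Pool.Agent.H57.GH.G1e

/-!
General graphs `H` with `u` dominating vertices: for which residues of `Δ` modulo `ω - u` the
Turan graph `L = T_ω(Δ + u ⌊Δ/(ω - u)⌋)` is optimal (large `ω`, large `Δ`), sharp for `u = 1`,
and the order of `P_u(H, Δ, ω) - ρ_u(H, L)`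
-/

set_option autoImplicit false
set_option linter.unusedSectionVars false

namespace Pool.Agent.Results.MP_e32fce_co.GeneralH

open Filter Topology H57E32 H57GH

/-- `P_u(H, Δ, ω)` is the density `ρ_u(H, L)` of the graph `L`, in the strong form:
`ex_u(p, H, B) k^u(L) ≤ p N(H, L)` for every `p`, with equality for every multiple `p` of
`k^u(L)`, and `ex_u(p, H, B)/p` tends to `N(H, L)/k^u(L)` -/
def Attains {W V : Type} [Fintype W] [Fintype V] (H : SimpleGraph W) (u Δ ω : ℕ)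
    (L : SimpleGraph V) : Prop :=
  (∀ p : ℕ, exH H u Δ ω p * kc u L ≤ p * L.copyCount H) ∧
  (∀ q : ℕ, exH H u Δ ω (q * kc u L) = q * L.copyCount H) ∧
  Tendsto (fun p : ℕ => (exH H u Δ ω p : ℝ) / p) atTop (𝓝 ((L.copyCount H : ℝ) / kc u L))

/-- `P_u(H, Δ, ω)` is larger than the density of the graph `L` -/
def Beaten {W V : Type} [Fintype W] [Fintype V] (H : SimpleGraph W) (u Δ ω : ℕ)
    (L : SimpleGraph V) : Prop :=
  ∃ c : ℝ, (L.copyCount H : ℝ) / kc u L < c ∧ ∀ᶠ p : ℕ in atTop, c * p ≤ exH H u Δ ω p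

/-- the Turan graph `L = T_ω(Δ + u ⌊Δ/(ω - u)⌋)` -/
abbrev LT (u Δ ω : ℕ) : SimpleGraph (Fin (Δ + u * (Δ / (ω - u)))) :=
  SimpleGraph.turanGraph (Δ + u * (Δ / (ω - u))) ω

section conditions

variable {ι : Type} [Fintype ι] [DecidableEq ι] (J : SimpleGraph ι) [DecidableRel J.Adj]

/-- the condition on pairs: `(u |J| + e(J)) β < e(J)` -/
def Pair (u : ℕ) (β : ℝ) : Prop :=
  ((u : ℝ) * Fintype.card ι + J.edgeFinset.card) * β < J.edgeFinset.card

/-- the condition on hubs -/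
def Hub (u : ℕ) (β : ℝ) : Prop := ∀ y : ℝ, 0 < y → y < 1 →
  u * y ^ (Fintype.card ι - Nat.card J.ConnectedComponent) + ∑ v, y ^ J.degree v <
    u + Fintype.card ι * (max (y - β) 0 / (y * (1 - β))) ^ u

/-- the sum of `∏_C ∑_i y_i ^ |C|` and `∑_v ∑_i y_i ^ (deg v + 1)` for the partition
`β, …, β, 1 - k β` of `1`, `k = ⌊1/β⌋` -/
noncomputable def Q (β : ℝ) : ℝ :=
  (∏ᶠ C : J.ConnectedComponent, ((⌊1 / β⌋₊ : ℝ) * β ^ (Nat.card C.supp) +
    (1 - ⌊1 / β⌋₊ * β) ^ (Nat.card C.supp))) +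
  ∑ v, ((⌊1 / β⌋₊ : ℝ) * β ^ (J.degree v + 1) + (1 - ⌊1 / β⌋₊ * β) ^ (J.degree v + 1))

end conditions

/-- `H` minus the dominating vertices `U` and minus the vertices which are isolated then -/
abbrev rest {W : Type} [Fintype W] [DecidableEq W] (H : SimpleGraph W) [DecidableRel H.Adj]
    (U : Finset W) : SimpleGraph {x : W // x ∉ U ∧ U.card < H.degree x} :=
  H.comap Subtype.val

section helpers

variable {ι : Type} [Fintype ι] [DecidableEq ι] (J : SimpleGraph ι) [DecidableRel J.Adj]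

private lemma dg_eq (v : ι) : H57GH.dg J Finset.univ v = J.degree v := by
  unfold H57GH.dg
  rw [← SimpleGraph.card_neighborFinset_eq_degree, SimpleGraph.neighborFinset_eq_filter]

private lemma oe_eq : ((oe J : ℕ) : ℝ) = 2 * (J.edgeFinset.card : ℝ) := by
  have h3 := J.sum_degrees_eq_twice_card_edges
  have h4 : oe J = ∑ v, J.degree v := by
    unfold oe
    rw [Finset.card_filter, ← Finset.univ_product_univ, Finset.sum_product]
    refine Finset.sum_congr rfl fun v _ => ?_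
    rw [← Finset.card_filter, ← SimpleGraph.card_neighborFinset_eq_degree,
      SimpleGraph.neighborFinset_eq_filter]
  rw [h4, h3]
  push_cast
  ring

private lemma pair_iff (u : ℕ) (β : ℝ) : PairC J u β ↔ Pair J u β := by
  unfold PairC Pair
  rw [oe_eq]
  constructor <;> intro h <;> nlinarith

private lemma pair_one {u : ℕ} (hu : u = 1) {β : ℝ} (h : Pair J u β) : PairC J 1 β := by
  subst hu
  exact (pair_iff _ _ _).2 h

private lemma hub_iff (u : ℕ) (β : ℝ) : HubC J u β ↔ Hub J u β := by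
  unfold HubC Hub Psi fP rk
  simp only [dg_eq]

private lemma Q_eq (β : ℝ) : Qc J β = Q J β := by
  unfold Qc Qk Q cprod Psi
  simp only [dg_eq, Finset.sum_add_distrib, pow_succ, Finset.mul_sum]
  rw [add_assoc]
  congr 1
  congr 1
  · exact Finset.sum_congr rfl fun v _ => by ring
  · exact Finset.sum_congr rfl fun v _ => by ring

end helpers

private lemma rest_deg {W : Type} [Fintype W] [DecidableEq W] (H : SimpleGraph W)
    [DecidableRel H.Adj] {U : Finset W} (hdom : ∀ x ∈ U, ∀ y, y ≠ x → H.Adj x y)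
    (v : {x : W // x ∉ U ∧ U.card < H.degree x}) :
    1 ≤ H57GH.dg (rest H U) Finset.univ v := by
  obtain ⟨w, hw, hwU⟩ : ∃ w ∈ H.neighborFinset v.1, w ∉ U := by
    by_contra hcon
    push Not at hcon
    have h1 := Finset.card_le_card (fun w hw => hcon w hw : H.neighborFinset v.1 ⊆ U)
    rw [SimpleGraph.card_neighborFinset_eq_degree] at h1
    have := v.2.2
    omega
  rw [SimpleGraph.mem_neighborFinset] at hw
  have hdeg : U.card < H.degree w := by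
    have h2 : insert v.1 U ⊆ H.neighborFinset w := by
      intro y hy
      rw [SimpleGraph.mem_neighborFinset]
      rw [Finset.mem_insert] at hy
      rcases hy with rfl | hy
      · exact hw.symm
      · exact (hdom y hy w (fun h => hwU (h ▸ hy))).symm
    have h3 := Finset.card_le_card h2
    rw [Finset.card_insert_of_notMem v.2.1, SimpleGraph.card_neighborFinset_eq_degree] at h3
    omega
  unfold H57GH.dg
  rw [Nat.one_le_iff_ne_zero, ← Nat.pos_iff_ne_zero, Finset.card_pos]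
  exact ⟨⟨w, hwU, hdeg⟩, Finset.mem_filter.2 ⟨Finset.mem_univ _, hw⟩⟩

/-- eventually in `R`, for all `r < R`, eventually in `m` -/
private def Ev (P : ℕ → ℕ → ℕ → Prop) : Prop := ∃ R₀ : ℕ, ∀ R r : ℕ, R₀ ≤ R → r < R → 1 ≤ r →
  ∃ m₀ : ℕ, ∀ m : ℕ, m₀ ≤ m → P R r m

private lemma Ev.and {P P' : ℕ → ℕ → ℕ → Prop} (h : Ev P) (h' : Ev P') :
    Ev fun R r m => P R r m ∧ P' R r m := by
  obtain ⟨R₁, h1⟩ := h
  obtain ⟨R₂, h2⟩ := h'
  refine ⟨max R₁ R₂, fun R r hR hr h3 => ?_⟩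
  obtain ⟨a, ha⟩ := h1 R r (le_trans (le_max_left _ _) hR) hr h3
  obtain ⟨b, hb⟩ := h2 R r (le_trans (le_max_right _ _) hR) hr h3
  exact ⟨max a b, fun m hm => ⟨ha m (le_trans (le_max_left _ _) hm),
    hb m (le_trans (le_max_right _ _) hm)⟩⟩

/-- a threshold in `m` for all residues -/
private lemma Ev.unif {P : ℕ → ℕ → ℕ → Prop} (h : Ev P) : ∃ R₀ : ℕ, ∀ R : ℕ, R₀ ≤ R →
    ∃ m₀ : ℕ, ∀ m r : ℕ, m₀ ≤ m → r < R → 1 ≤ r → P R r m := by
  classical
  obtain ⟨R₁, h1⟩ := h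
  refine ⟨R₁, fun R hR => ?_⟩
  have key : ∀ r : ℕ, ∃ m₀ : ℕ, ∀ m : ℕ, m₀ ≤ m → r < R → 1 ≤ r → P R r m := by
    intro r
    by_cases hr : r < R ∧ 1 ≤ r
    · obtain ⟨a, ha⟩ := h1 R r hR hr.1 hr.2
      exact ⟨a, fun m hm _ _ => ha m hm⟩
    · exact ⟨0, fun m _ h2 h3 => absurd ⟨h2, h3⟩ hr⟩
  choose m₀ hm₀ using key
  refine ⟨∑ r ∈ Finset.range R, m₀ r, fun m r hm hr hr1 => hm₀ r m ?_ hr hr1⟩
  refine le_trans ?_ hm
  exact Finset.single_le_sum (f := m₀) (fun _ _ => Nat.zero_le _) (Finset.mem_range.2 hr)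

section parts

variable {W : Type} [Fintype W] [DecidableEq W] (H : SimpleGraph W) [DecidableRel H.Adj]
  (U : Finset W)

/-- small residues -/
private lemma ev_small (hu : 1 ≤ U.card) (hdom : ∀ x ∈ U, ∀ y, y ≠ x → H.Adj x y)
    (hW : U.card < Fintype.card W) : Ev fun R r m => r + U.card ≤ H.minDegree →
      Attains H U.card (R * m + r) (R + U.card) (H57LC.TG (R + U.card) m r) := by
  by_cases hδ : U.card + 1 ≤ H.minDegree
  · obtain ⟨R₀, c₀, _, h⟩ := main_H2 H U.card hu U rfl hdom hW hδ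
    refine ⟨R₀, fun R r hR _ hr => ?_⟩
    by_cases hc : r + U.card ≤ H.minDegree
    · obtain ⟨m₀, hm⟩ := h R r hR hr (Or.inl hc)
      exact ⟨m₀, fun m hmm _ => hm m hmm⟩
    · exact ⟨0, fun m _ h => absurd h hc⟩
  · exact ⟨0, fun R r _ _ hr => ⟨0, fun m _ h => by omega⟩⟩

/-- the explicit range, hub condition -/
private lemma ev_hub (hu : 1 ≤ U.card) (hdom : ∀ x ∈ U, ∀ y, y ≠ x → H.Adj x y)
    (hW : U.card < Fintype.card W) {β : ℝ} (hβ : 0 < β) (hβ1 : β < 1) :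
    Ev fun R r m => 2 * U.card ≤ H.minDegree → (r : ℝ) ≤ β * R → Pair (rest H U) U.card β →
      Hub (rest H U) U.card β →
      Attains H U.card (R * m + r) (R + U.card) (H57LC.TG (R + U.card) m r) := by
  by_cases hc : 2 * U.card ≤ H.minDegree ∧ Pair (rest H U) U.card β ∧ Hub (rest H U) U.card β
  · obtain ⟨R₀, h⟩ := main_HS H U.card hu U rfl hdom hW hc.1 hβ hβ1
      ((pair_iff _ _ _).2 hc.2.1) ((hub_iff _ _ _).2 hc.2.2)
    refine ⟨R₀, fun R r hR _ hr => ?_⟩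
    by_cases hr2 : (r : ℝ) ≤ β * R
    · obtain ⟨m₀, hm⟩ := h R r hR hr hr2
      exact ⟨m₀, fun m hmm _ _ _ _ => hm m hmm⟩
    · exact ⟨0, fun m _ _ h => absurd h hr2⟩
  · exact ⟨0, fun R r _ _ hr => ⟨0, fun m _ h1 _ h2 h3 => absurd ⟨h1, h2, h3⟩ hc⟩⟩

private lemma iso_one {x₀ : W} (hx : U = {x₀}) :
    Nonempty (rest H U ≃g H.comap (Subtype.val : {x : W // x ≠ x₀ ∧ 1 < H.degree x} → W)) := by
  subst hx
  refine ⟨⟨Equiv.subtypeEquivRight fun x => ?_, ?_⟩⟩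
  · simp
  · intro a b
    rfl

/-- the explicit range, `u = 1` -/
private lemma ev_Q (hdom : ∀ x ∈ U, ∀ y, y ≠ x → H.Adj x y) {β : ℝ} (hβ : 0 < β) (hβ1 : β < 1) :
    Ev fun R r m => U.card = 1 → 2 ≤ H.minDegree → (r : ℝ) ≤ β * R →
      Pair (rest H U) U.card β → Q (rest H U) β < 1 →
      Attains H U.card (R * m + r) (R + U.card) (H57LC.TG (R + U.card) m r) := by
  by_cases hc : U.card = 1 ∧ 2 ≤ H.minDegree ∧ Pair (rest H U) U.card β ∧ Q (rest H U) β < 1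
  · obtain ⟨hU1, hδ, hp, hQ⟩ := hc
    obtain ⟨x₀, hx₀⟩ := Finset.card_eq_one.1 hU1
    obtain ⟨e⟩ := iso_one H U hx₀
    obtain ⟨R₀, h⟩ := main_HB H x₀ (fun y hy => hdom x₀ (by simp [hx₀]) y hy) hδ hβ hβ1
      (BFin_pair e (pair_one _ hU1 hp)) (by rw [← Qc_congr e, Q_eq]; exact hQ)
    refine ⟨R₀, fun R r hR _ hr => ?_⟩
    by_cases hr2 : (r : ℝ) ≤ β * R
    · obtain ⟨m₀, hm⟩ := h R r hR hr hr2
      refine ⟨m₀, fun m hmm h1 _ _ _ _ => ?_⟩
      rw [h1]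
      exact hm m hmm
    · exact ⟨0, fun m _ _ _ h => absurd h hr2⟩
  · exact ⟨0, fun R r _ _ hr => ⟨0, fun m _ h1 h2 _ h3 h4 => absurd ⟨h1, h2, h3, h4⟩ hc⟩⟩

/-- minimum degree one -/
private lemma ev_D (hdom : ∀ x ∈ U, ∀ y, y ≠ x → H.Adj x y) {β : ℝ} (hβ : 0 < β) (hβ1 : β < 1) :
    Ev fun R r m => U.card = 1 → H.minDegree = 1 → (r : ℝ) ≤ β * R →
      (Nonempty {x : W // x ∉ U ∧ U.card < H.degree x} → Pair (rest H U) U.card β ∧
          Q (rest H U) β < 1) →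
      Attains H U.card (R * m + r) (R + U.card) (DL (R + U.card) m r) := by
  by_cases hc : U.card = 1 ∧ H.minDegree = 1 ∧
      (Nonempty {x : W // x ∉ U ∧ U.card < H.degree x} → Pair (rest H U) U.card β ∧
          Q (rest H U) β < 1)
  · obtain ⟨hU1, hδ, hp⟩ := hc
    obtain ⟨x₀, hx₀⟩ := Finset.card_eq_one.1 hU1
    obtain ⟨e⟩ := iso_one H U hx₀
    obtain ⟨R₀, h⟩ := main_DB H x₀ (fun y hy => hdom x₀ (by simp [hx₀]) y hy) hδ hβ hβ1
      (fun hne => by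
        have h1 := hp (by
          obtain ⟨x, hx⟩ := hne
          exact ⟨⟨x, by simp [hx₀, hx.1], by simpa [hx₀] using hx.2⟩⟩)
        exact ⟨BFin_pair e (pair_one _ hU1 h1.1), by rw [← Qc_congr e, Q_eq]; exact h1.2⟩)
    refine ⟨R₀, fun R r hR _ hr => ?_⟩
    by_cases hr2 : (r : ℝ) ≤ β * R
    · obtain ⟨m₀, hm⟩ := h R r hR hr hr2
      refine ⟨m₀, fun m hmm h1 _ _ _ => ?_⟩
      rw [h1]
      exact hm m hmm
    · exact ⟨0, fun m _ _ _ h => absurd h hr2⟩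
  · exact ⟨0, fun R r _ _ hr => ⟨0, fun m _ h1 h2 _ h3 => absurd ⟨h1, h2, h3⟩ hc⟩⟩

/-- small minimum degree: `L` is not optimal -/
private lemma ev_neg (hu : 1 ≤ U.card) (hdom : ∀ x ∈ U, ∀ y, y ≠ x → H.Adj x y)
    (hW : U.card < Fintype.card W) : Ev fun R r m => H.minDegree < 2 * U.card →
      H.minDegree < r + U.card →
      Beaten H U.card (R * m + r) (R + U.card) (H57LC.TG (R + U.card) m r) := by
  refine ⟨Fintype.card W, fun R r hR hr hr1 => ⟨1, fun m hm h1 h2 => ?_⟩⟩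
  exact neg_main H hu U rfl hdom hW (by omega) h1 h2 hr hm

/-- large residues: `L` is not optimal -/
private lemma ev_large (hu : 1 ≤ U.card) (hdom : ∀ x ∈ U, ∀ y, y ≠ x → H.Adj x y)
    (hW : U.card < Fintype.card W) : Ev fun R r m =>
      (((R + U.card : ℕ) : ℝ) - 1 - r) *
          (2 * (H.edgeFinset.card : ℝ) - (U.card : ℝ) * (U.card - 1)) <
        (U.card : ℝ) * ((Fintype.card W : ℝ) - U.card) * (((R + U.card : ℕ) : ℝ) - 1) →
      Beaten H U.card (R * m + r) (R + U.card) (H57LC.TG (R + U.card) m r) := by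
  refine ⟨Fintype.card W, fun R r hR hr hr1 => ?_⟩
  by_cases hc : (((R + U.card : ℕ) : ℝ) - 1 - r) *
          (2 * (H.edgeFinset.card : ℝ) - (U.card : ℝ) * (U.card - 1)) <
        (U.card : ℝ) * ((Fintype.card W : ℝ) - U.card) * (((R + U.card : ℕ) : ℝ) - 1)
  · obtain ⟨b, hb⟩ := neg_large H (R := R) (r := r) hu U rfl hdom hW (by omega) hr (by
      rw [oe_eq]
      push_cast at hc
      linarith)
    exact ⟨b, fun m hm _ => hb m hm⟩
  · exact ⟨0, fun m _ h => absurd h hc⟩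

/-- hubs: `L` is not optimal, `u = 1` -/
private lemma ev_nQ (hdom : ∀ x ∈ U, ∀ y, y ≠ x → H.Adj x y) {β : ℝ} (hβ : 0 < β) (hβ1 : β < 1) :
    Ev fun R r m => U.card = 1 → 2 ≤ H.minDegree → β * R ≤ (r : ℝ) → 1 < Q (rest H U) β →
      Beaten H U.card (R * m + r) (R + U.card) (H57LC.TG (R + U.card) m r) := by
  by_cases hc : U.card = 1 ∧ 2 ≤ H.minDegree ∧ 1 < Q (rest H U) β
  · obtain ⟨hU1, hδ, hQ⟩ := hc
    obtain ⟨x₀, hx₀⟩ := Finset.card_eq_one.1 hU1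
    obtain ⟨e⟩ := iso_one H U hx₀
    obtain ⟨R₀, h⟩ := hub_neg H x₀ (fun y hy => hdom x₀ (by simp [hx₀]) y hy) hδ hβ hβ1
      (by rw [← Qc_congr e, Q_eq]; exact hQ)
    refine ⟨R₀, fun R r hR hrR hr => ?_⟩
    by_cases hr2 : β * R ≤ (r : ℝ)
    · obtain ⟨m₀, hm⟩ := h R r hR hrR hr2
      refine ⟨m₀, fun m hmm h1 _ _ _ => ?_⟩
      rw [h1]
      exact hm m hmm
    · exact ⟨0, fun m _ _ _ h => absurd h hr2⟩
  · exact ⟨0, fun R r _ _ hr => ⟨0, fun m _ h1 h2 _ h3 => absurd ⟨h1, h2, h3⟩ hc⟩⟩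

private lemma rest_edges (hdom : ∀ x ∈ U, ∀ y, y ≠ x → H.Adj x y) (h1 : U.card = 1)
    (hδ : 2 ≤ H.minDegree) : (H.edgeFinset.card : ℝ) =
      (Fintype.card W : ℝ) - 1 + (rest H U).edgeFinset.card ∧
      ((oe H : ℕ) : ℝ) = 2 * (H.edgeFinset.card : ℝ) := by
  have e1 : jn (H.comap (fun x : {x : W // ¬ x ∈ U} => (x : W))) 1 ≃g H := FinalH_iso H 1 U h1 hdom
  have hcard : 1 + Fintype.card {x : W // ¬ x ∈ U} = Fintype.card W := by
    rw [← card_jn]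
    exact Fintype.card_congr e1.toEquiv
  have e2 : rest H U ≃g H.comap (fun x : {x : W // ¬ x ∈ U} => (x : W)) := by
    refine ⟨Equiv.subtypeEquivRight fun x => ?_, ?_⟩
    · have := H.minDegree_le_degree x
      exact ⟨fun h => h.1, fun h => ⟨h, by omega⟩⟩
    · intro a b
      rfl
  have h2 := SFin_oe e1
  have h3 := SFin_oe e2
  rw [oe_join] at h2
  have h4 := oe_eq H
  have h5 := oe_eq (rest H U)
  have h6 : ((oe H : ℕ) : ℝ) = 2 * Fintype.card {x : W // ¬ x ∈ U} + (oe (rest H U) : ℕ) := by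
    rw [← h2, h3]
    push_cast
    ring
  have h7 : (Fintype.card W : ℝ) = 1 + Fintype.card {x : W // ¬ x ∈ U} := by
    rw [← hcard]
    push_cast
    ring
  refine ⟨?_, h4⟩
  rw [h4, h5] at h6
  rw [h7]
  linarith

/-- pairs: `L` is not optimal, `u = 1` -/
private lemma ev_nP (hdom : ∀ x ∈ U, ∀ y, y ≠ x → H.Adj x y) {β : ℝ}
    (hW : U.card < Fintype.card W)  :
    Ev fun R r m => U.card = 1 → 2 ≤ H.minDegree → β * R ≤ (r : ℝ) →
      ((rest H U).edgeFinset.card : ℝ) < β * H.edgeFinset.card →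
      Beaten H U.card (R * m + r) (R + U.card) (H57LC.TG (R + U.card) m r) := by
  by_cases hc : U.card = 1 ∧ 2 ≤ H.minDegree ∧
      ((rest H U).edgeFinset.card : ℝ) < β * H.edgeFinset.card
  · obtain ⟨hU1, hδ, he⟩ := hc
    obtain ⟨x₀, hx₀⟩ := Finset.card_eq_one.1 hU1
    obtain ⟨h1, h2⟩ := rest_edges H U hdom hU1 hδ
    rw [hU1] at hW
    refine ⟨Fintype.card W + oe H + 1, fun R r hR hrR hr => ?_⟩
    have hR0 : (0 : ℝ) < R := by
      have : 0 < R := by omega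
      exact_mod_cast this
    by_cases hr2 : β * R ≤ (r : ℝ)
    · have key : ((R : ℝ) - r) * (oe H : ℝ) < 2 * ((Fintype.card W : ℝ) - 1) * R := by
        rw [h2]
        have h3 : ((R : ℝ) - r) * (H.edgeFinset.card : ℝ) ≤
            ((R : ℝ) - β * R) * (H.edgeFinset.card : ℝ) :=
          mul_le_mul_of_nonneg_right (by linarith) (Nat.cast_nonneg _)
        have h4 : ((R : ℝ) - β * R) * (H.edgeFinset.card : ℝ) <
            ((Fintype.card W : ℝ) - 1) * R := by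
          have h5 : ((R : ℝ) - β * R) * (H.edgeFinset.card : ℝ) =
            R * (H.edgeFinset.card - β * H.edgeFinset.card) := by ring
          rw [h5, mul_comm]
          exact mul_lt_mul_of_pos_right (by linarith) hR0
        linarith
      obtain ⟨b, hb⟩ : ∃ m₀ : ℕ, ∀ m : ℕ, m₀ ≤ m →
          Beaten H 1 (R * m + r) (R + 1) (H57LC.TG (R + 1) m r) := by
        by_cases hr3 : r + 2 ≤ R
        · exact mat_neg H x₀ (fun y hy => hdom x₀ (by simp [hx₀]) y hy) hW (by omega) hr3 key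
        · have h6 : R = r + 1 := by omega
          refine neg_large H le_rfl {x₀} (by simp) (fun x hx y hy => hdom x (by
            rw [hx₀]; exact hx) y hy) hW (by omega) hrR ?_
          have h7 : ((oe H : ℕ) : ℝ) < R := by
            have : oe H < R := by omega
            exact_mod_cast this
          have h8 : (2 : ℝ) ≤ Fintype.card W := by exact_mod_cast hW
          have h9 : (R : ℝ) = r + 1 := by rw [h6]; push_cast; ring
          have h10 : ((R : ℝ) + (1 : ℕ) - 1 - r) * ((oe H : ℝ) - (1 : ℕ) * ((1 : ℕ) - 1)) =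
              oe H := by
            rw [h9]; push_cast; ring
          rw [h10]
          push_cast
          nlinarith
      refine ⟨b, fun m hm h1 _ _ _ => ?_⟩
      rw [h1]
      exact hb m hm
    · exact ⟨0, fun m _ _ _ h => absurd h hr2⟩
  · exact ⟨0, fun R r _ _ hr => ⟨0, fun m _ h1 h2 _ h3 => absurd ⟨h1, h2, h3⟩ hc⟩⟩

end parts

theorem result {W : Type} [Fintype W] [DecidableEq W] (H : SimpleGraph W) [DecidableRel H.Adj]
    (u : ℕ) (hu : 1 ≤ u) (U : Finset W) (hU : U.card = u)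
    (hdom : ∀ x ∈ U, ∀ y, y ≠ x → H.Adj x y) (hW : u < Fintype.card W) :
    (Nonempty {x : W // x ∉ U ∧ U.card < H.degree x} →
      ∃ β₀ : ℝ, 0 < β₀ ∧ ∀ β : ℝ, 0 < β → β ≤ β₀ →
        Pair (rest H U) u β ∧ Hub (rest H U) u β ∧ Q (rest H U) β < 1) ∧
    ∃ c₀ : ℝ, 0 < c₀ ∧ ∀ β : ℝ, 0 < β → β < 1 → ∃ ω₀ : ℕ, ∀ ω : ℕ, ω₀ ≤ ω → ∃ Δ₀ : ℕ,
    ∃ a A : ℝ, 0 < a ∧ 0 < A ∧ ∀ Δ : ℕ, Δ₀ ≤ Δ → ∀ r m : ℕ, r = Δ % (ω - u) → 1 ≤ r →
      m = Δ / (ω - u) →
      -- `L` is optimal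
      (r + u ≤ H.minDegree ∨
        (2 * u ≤ H.minDegree ∧ (r : ℝ) ≤ β * ((ω : ℝ) - u) ∧ Pair (rest H U) u β ∧
          (Hub (rest H U) u β ∨ (u = 1 ∧ Q (rest H U) β < 1))) →
        Attains H u Δ ω (LT u Δ ω)) ∧
      -- `L` is not optimal
      ((H.minDegree < 2 * u ∧ H.minDegree < r + u) ∨
        ((ω : ℝ) - 1 - r) * (2 * (H.edgeFinset.card : ℝ) - u * (u - 1)) <
            u * ((Fintype.card W : ℝ) - u) * ((ω : ℝ) - 1) ∨
        (u = 1 ∧ 2 ≤ H.minDegree ∧ β * ((ω : ℝ) - u) ≤ r ∧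
          (((rest H U).edgeFinset.card : ℝ) < β * H.edgeFinset.card ∨ 1 < Q (rest H U) β)) →
        Beaten H u Δ ω (LT u Δ ω)) ∧
      -- `u = 1`, minimum degree `1`
      (u = 1 → H.minDegree = 1 → (r : ℝ) ≤ β * ((ω : ℝ) - u) →
        (Nonempty {x : W // x ∉ U ∧ U.card < H.degree x} → Pair (rest H U) u β ∧
          Q (rest H U) β < 1) →
        Attains H u Δ ω (DL ω m r)) ∧
      -- the order of the difference
      ((r : ℝ) ≤ c₀ * ((ω : ℝ) - u) → ∀ p : ℕ, (exH H u Δ ω p : ℝ) ≤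
        (((LT u Δ ω).copyCount H : ℝ) / kc u (LT u Δ ω) +
          A * (m : ℝ) ^ (Fintype.card W - 1 - H.minDegree)) * p) ∧
      (2 ≤ u → H.minDegree < 2 * u → 2 * (H.minDegree - u) + 2 ≤ r → ∀ᶠ p : ℕ in atTop,
        (((LT u Δ ω).copyCount H : ℝ) / kc u (LT u Δ ω) +
          a * (m : ℝ) ^ (Fintype.card W - 1 - H.minDegree)) * p ≤ exH H u Δ ω p) := by
  classical
  subst hU
  refine ⟨fun hne => ?_, ?_⟩
  · obtain ⟨β₁, hβ₁, h1⟩ := cond_small (rest H U) (rest_deg H hdom) hu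
    obtain ⟨β₂, hβ₂, h2⟩ := Qc_small (rest H U) (rest_deg H hdom)
    refine ⟨min β₁ β₂, lt_min hβ₁ hβ₂, fun β hβ hβ' => ?_⟩
    have h3 := h1 β hβ (hβ'.trans (min_le_left _ _))
    exact ⟨(pair_iff _ _ _).1 h3.1, (hub_iff _ _ _).1 h3.2,
      by rw [← Q_eq]; exact h2 β hβ (hβ'.trans (min_le_right _ _))⟩
  obtain ⟨Rg, c₀, hc₀, hgap⟩ := gap_upper H hu U rfl hdom hW
  refine ⟨c₀, hc₀, fun β hβ hβ1 => ?_⟩
  obtain ⟨Re, hev⟩ := ((((ev_small H U hu hdom hW).and (ev_hub H U hu hdom hW hβ hβ1)).and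
    ((ev_Q H U hdom hβ hβ1).and (ev_D H U hdom hβ hβ1))).and
    (((ev_neg H U hu hdom hW).and (ev_large H U hu hdom hW)).and
    ((ev_nQ H U hdom hβ hβ1).and (ev_nP H U hdom (β := β) hW)))).unif
  refine ⟨Rg + Re + 2 * Fintype.card W + U.card + 1, fun ω hω => ?_⟩
  obtain ⟨R, rfl⟩ : ∃ R, ω = R + U.card := ⟨ω - U.card, by omega⟩
  have e1 : R + U.card - U.card = R := by omega
  have hR0 : 0 < R := by omega
  obtain ⟨m₁, h1⟩ := hev R (by omega)
  obtain ⟨A, hA, m₂, h2⟩ := hgap R (by omega)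
  obtain ⟨a, ha, m₃, h3⟩ : ∃ a : ℝ, 0 < a ∧ ∃ m₃ : ℕ, ∀ m r : ℕ, m₃ ≤ m → r < R →
      2 ≤ U.card → H.minDegree < 2 * U.card → 2 * (H.minDegree - U.card) + 2 ≤ r →
      ∀ᶠ p : ℕ in atTop,
        (((H57LC.TG (R + U.card) m r).copyCount H : ℝ) / kc U.card (H57LC.TG (R + U.card) m r) +
          a * (m : ℝ) ^ (Fintype.card W - 1 - H.minDegree)) * p ≤
            exH H U.card (R * m + r) (R + U.card) p := by
    by_cases hc : 2 ≤ U.card ∧ H.minDegree < 2 * U.card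
    · obtain ⟨a, ha, m₃, h⟩ := gap_lower H hc.1 U rfl hdom hW hc.2 (R := R) (by omega)
      exact ⟨a, ha, m₃, fun m r hm hr _ _ => h m r hm hr⟩
    · exact ⟨1, one_pos, 0, fun m r _ _ h h' => absurd ⟨h, h'⟩ hc⟩
  refine ⟨R * (m₁ + m₂ + m₃), a, A, ha, hA, fun Δ hΔ r m hr hr1 hm => ?_⟩
  rw [e1] at hr hm
  have hrR : r < R := by rw [hr]; exact Nat.mod_lt _ hR0
  have hm0 : m₁ + m₂ + m₃ ≤ m := by
    rw [hm]
    exact (Nat.le_div_iff_mul_le hR0).2 (by rw [mul_comm]; exact hΔ)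
  have e4 : Δ = R * m + r := by
    rw [hr, hm]
    exact (Nat.div_add_mod Δ R).symm
  have e5 : Δ + U.card * (Δ / R) = (R + U.card) * m + r := by
    rw [← hm, e4]
    ring
  have e6 : ((R + U.card : ℕ) : ℝ) - U.card = R := by push_cast; ring
  unfold LT
  rw [e1, e5, e6]
  obtain ⟨⟨⟨hA1, hA2⟩, hA3, hA4⟩, ⟨hB1, hB2⟩, hB3, hB4⟩ := h1 m r (by omega) hrR hr1
  have h2' := h2 m r (by omega) hr1
  have h3' := h3 m r (by omega) hrR
  rw [← e4] at hA1 hA2 hA3 hA4 hB1 hB2 hB3 hB4 h2' h3'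
  refine ⟨?_, ?_, fun h5 h6 h7 h8 => hA4 h5 h6 h7 h8, fun h => h2' h, h3'⟩
  · rintro (h | ⟨h5, h6, h7, h8 | ⟨h8, h9⟩⟩)
    · exact hA1 h
    · exact hA2 h5 h6 h7 h8
    · exact hA3 h8 (by omega) h6 h7 h9
  · rintro (h | h | ⟨h5, h6, h7, h8 | h8⟩)
    · exact hB1 h.1 h.2
    · exact hB2 h
    · exact hB4 h5 h6 h7 h8
    · exact hB3 h5 h6 h7 h8

end Pool.Agent.Results.MP_e32fce_co.GeneralH
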